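import Pool.Statements.S01883
import Pool.Agent.GW215.Main

set_option autoImplicit false
open Pool Pool.MP_71db51_al

namespace Pool.Agent.S01883

open Pool.Agent.GW215

/-- Transfer of a generic module with large residue ring from a ring `R` to a ring `S` opposite to
it, which is finite over a commutative noetherian ring. -/
theorem generic_transfer {k R S : Type} [CommRing k] [IsNoetherianRing k] [Ring R] [Ring S]
    [Algebra k S] [Module.Finite k S] (e : S ≃+* Rᵐᵒᵖ) {M : Type} [AddCommGroup M] [Module R M]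
    (h1 : Nontrivial M)
    (h2 : ∀ N₁ N₂ : Submodule R M, IsCompl N₁ N₂ → N₁ = ⊥ ∨ N₂ = ⊥)
    (h3 : IsFiniteLength (Module.End R M) M)
    (h4 : ¬ Module.Finite
      (Subring.center (Module.End R M ⧸ Ring.jacobson (Module.End R M)))
      (Module.End R M ⧸ Ring.jacobson (Module.End R M))) :
    ∃ (N : Type) (_ : AddCommGroup N) (_ : Module S N),
        Nontrivial N ∧
        (∀ N₁ N₂ : Submodule S N, IsCompl N₁ N₂ → N₁ = ⊥ ∨ N₂ = ⊥) ∧
        IsFiniteLength (Module.End S N) N ∧
        ¬ Module.Finite S N ∧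
        ¬ Module.Finite
            (Subring.center (Module.End S N ⧸ Ring.jacobson (Module.End S N)))
            (Module.End S N ⧸ Ring.jacobson (Module.End S N)) := by
  obtain ⟨N, _, _, hnt, hloc, hfl, ⟨ρ⟩⟩ := transfer e h2 h3
  have h5 : ¬ Module.Finite
      (Subring.center (Module.End S N ⧸ Ring.jacobson (Module.End S N)))
      (Module.End S N ⧸ Ring.jacobson (Module.End S N)) := fun h => h4 (finC_of_op ρ h)
  exact ⟨N, inferInstance, inferInstance, hnt, indec_of_local hloc, hfl,
    fun h => h5 (finC_of_finite (k := k)), h5⟩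

/-- For every algebra R finite over a commutative noetherian ring: a left generic module exists whose endomorphism ring mod its Jacobson radical is not finite over its centre iff such a right module exists. -/
theorem result :
    ∀ (k : Type) [CommRing k] [IsNoetherianRing k] (R : Type) [Ring R] [Algebra k R]
      [Module.Finite k R],
      (∃ (M : Type) (_ : AddCommGroup M) (_ : Module R M),
        Nontrivial M ∧
        (∀ N₁ N₂ : Submodule R M, IsCompl N₁ N₂ → N₁ = ⊥ ∨ N₂ = ⊥) ∧
        IsFiniteLength (Module.End R M) M ∧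
        ¬ Module.Finite R M ∧
        ¬ Module.Finite
            (Subring.center (Module.End R M ⧸ Ring.jacobson (Module.End R M)))
            (Module.End R M ⧸ Ring.jacobson (Module.End R M))) ↔
      (∃ (M : Type) (_ : AddCommGroup M) (_ : Module Rᵐᵒᵖ M),
        Nontrivial M ∧
        (∀ N₁ N₂ : Submodule Rᵐᵒᵖ M, IsCompl N₁ N₂ → N₁ = ⊥ ∨ N₂ = ⊥) ∧
        IsFiniteLength (Module.End Rᵐᵒᵖ M) M ∧
        ¬ Module.Finite Rᵐᵒᵖ M ∧
        ¬ Module.Finite
            (Subring.center (Module.End Rᵐᵒᵖ M ⧸ Ring.jacobson (Module.End Rᵐᵒᵖ M)))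
            (Module.End Rᵐᵒᵖ M ⧸ Ring.jacobson (Module.End Rᵐᵒᵖ M))) := by
  intro k _ _ R _ _ _
  have : Module.Finite k Rᵐᵒᵖ := Module.Finite.equiv (MulOpposite.opLinearEquiv k : R ≃ₗ[k] Rᵐᵒᵖ)
  constructor
  · rintro ⟨M, _, _, h1, h2, h3, -, h4⟩
    exact generic_transfer (k := k) (RingEquiv.refl Rᵐᵒᵖ) h1 h2 h3 h4
  · rintro ⟨M, _, _, h1, h2, h3, -, h4⟩
    exact generic_transfer (k := k) (RingEquiv.opOp R) h1 h2 h3 h4

end Pool.Agent.S01883
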