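import Pool.Statements.S07938

set_option autoImplicit false
open Pool Pool.MP_308b22_co

namespace Pool.Agent.S07938

/-- Euclidean three-space. -/
abbrev E := EuclideanSpace ℝ (Fin 3)

/-- The three unit vectors and the negatives of their pairwise sums. -/
noncomputable def p0 : E := !₂[1, 0, 0]
noncomputable def p1 : E := !₂[0, 1, 0]
noncomputable def p2 : E := !₂[0, 0, 1]
noncomputable def q0 : E := !₂[0, -1, -1]
noncomputable def q1 : E := !₂[-1, 0, -1]
noncomputable def q2 : E := !₂[-1, -1, 0]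

lemma inner3 (a x : E) : inner ℝ a x = a 0 * x 0 + a 1 * x 1 + a 2 * x 2 := by
  simp [PiLp.inner_apply, Fin.sum_univ_three]
  ring

lemma ip0 (a : E) : inner ℝ a p0 = a 0 := by simp [inner3, p0]
lemma ip1 (a : E) : inner ℝ a p1 = a 1 := by simp [inner3, p1]
lemma ip2 (a : E) : inner ℝ a p2 = a 2 := by simp [inner3, p2]
lemma iq0 (a : E) : inner ℝ a q0 = - a 1 - a 2 := by simp [inner3, q0]; ring
lemma iq1 (a : E) : inner ℝ a q1 = - a 0 - a 2 := by simp [inner3, q1]; ring
lemma iq2 (a : E) : inner ℝ a q2 = - a 0 - a 1 := by simp [inner3, q2]; ring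

open Classical in
/-- The six points. -/
noncomputable def S : Finset E := {p0, p1, p2, q0, q1, q2}

lemma memS (x : E) : x ∈ S ↔ x = p0 ∨ x = p1 ∨ x = p2 ∨ x = q0 ∨ x = q1 ∨ x = q2 := by
  simp [S]

lemma ne_of_coord {x y : E} (i : Fin 3) (h : x i ≠ y i) : x ≠ y := fun e => h (by rw [e])

/-- Every linear functional is nonpositive at two distinct points of `S`. -/
lemma two_points (a : E) : ∃ x ∈ S, ∃ y ∈ S, x ≠ y ∧ inner ℝ a x ≤ 0 ∧ inner ℝ a y ≤ 0 := by
  have h01 : p0 ≠ p1 := ne_of_coord 0 (by simp [p0, p1])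
  have h02 : p0 ≠ p2 := ne_of_coord 0 (by simp [p0, p2])
  have h12 : p1 ≠ p2 := ne_of_coord 1 (by simp [p1, p2])
  have h0q : p0 ≠ q0 := ne_of_coord 0 (by simp [p0, q0])
  have h1q : p1 ≠ q1 := ne_of_coord 1 (by simp [p1, q1])
  have h2q : p2 ≠ q2 := ne_of_coord 2 (by simp [p2, q2])
  have hqq : q0 ≠ q1 := ne_of_coord 0 (by simp [q0, q1])
  rcases le_or_gt (a 0) 0 with h0 | h0 <;> rcases le_or_gt (a 1) 0 with h1 | h1 <;>
    rcases le_or_gt (a 2) 0 with h2 | h2
  · exact ⟨p0, by simp [memS], p1, by simp [memS], h01, by rw [ip0]; exact h0, by rw [ip1]; exact h1⟩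
  · exact ⟨p0, by simp [memS], p1, by simp [memS], h01, by rw [ip0]; exact h0, by rw [ip1]; exact h1⟩
  · exact ⟨p0, by simp [memS], p2, by simp [memS], h02, by rw [ip0]; exact h0, by rw [ip2]; exact h2⟩
  · exact ⟨p0, by simp [memS], q0, by simp [memS], h0q, by rw [ip0]; exact h0,
      by rw [iq0]; linarith⟩
  · exact ⟨p1, by simp [memS], p2, by simp [memS], h12, by rw [ip1]; exact h1, by rw [ip2]; exact h2⟩
  · exact ⟨p1, by simp [memS], q1, by simp [memS], h1q, by rw [ip1]; exact h1,
      by rw [iq1]; linarith⟩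
  · exact ⟨p2, by simp [memS], q2, by simp [memS], h2q, by rw [ip2]; exact h2,
      by rw [iq2]; linarith⟩
  · exact ⟨q0, by simp [memS], q1, by simp [memS], hqq, by rw [iq0]; linarith,
      by rw [iq1]; linarith⟩

/-- The 2-core of `S`. -/
def core : Set E := {z : E | ∀ (a : E) (b : ℝ), a ≠ 0 → inner ℝ a z ≤ b →
              2 ≤ (S.filter (fun x => inner ℝ a x ≤ b)).card}

lemma zero_mem_core : (0 : E) ∈ core := by
  intro a b _ hb
  rw [inner_zero_right] at hb
  obtain ⟨x, hx, y, hy, hne, h1, h2⟩ := two_points a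
  apply Finset.one_lt_card.2
  exact ⟨x, Finset.mem_filter.2 ⟨hx, h1.trans hb⟩, y, Finset.mem_filter.2 ⟨hy, h2.trans hb⟩, hne⟩

lemma core_nonpos (z : E) (hz : z ∈ core) (i : Fin 3) : z i ≤ 0 := by
  by_contra hlt
  push Not at hlt
  have key : ∀ (p a : E), a ≠ 0 → inner ℝ a z = - z i →
      (∀ x ∈ S, inner ℝ a x < 0 → x = p) → False := by
    intro p a ha h1 h2
    have h3 := hz a (- z i) ha h1.le
    have h4 : (S.filter (fun x => inner ℝ a x ≤ - z i)).card ≤ 1 := by
      apply Finset.card_le_one.2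
      intro x hx y hy
      rw [Finset.mem_filter] at hx hy
      rw [h2 x hx.1 (by linarith [hx.2]), h2 y hy.1 (by linarith [hy.2])]
    omega
  fin_cases i
  · refine key p0 (!₂[-1, 0, 0]) (ne_of_coord 0 (by simp)) (by simp [inner3]) ?_
    intro x hx hneg
    rcases (memS x).1 hx with rfl | rfl | rfl | rfl | rfl | rfl
    · rfl
    all_goals exfalso; simp [ip1, ip2, iq0, iq1, iq2] at hneg
    all_goals linarith
  · refine key p1 (!₂[0, -1, 0]) (ne_of_coord 1 (by simp)) (by simp [inner3]) ?_
    intro x hx hneg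
    rcases (memS x).1 hx with rfl | rfl | rfl | rfl | rfl | rfl
    · exfalso; simp [ip0] at hneg
    · rfl
    all_goals exfalso; simp [ip1, ip2, iq0, iq1, iq2] at hneg
    all_goals linarith
  · refine key p2 (!₂[0, 0, -1]) (ne_of_coord 2 (by simp)) (by simp [inner3]) ?_
    intro x hx hneg
    rcases (memS x).1 hx with rfl | rfl | rfl | rfl | rfl | rfl
    · exfalso; simp [ip0] at hneg
    · exfalso; simp [ip1] at hneg
    · rfl
    all_goals exfalso; simp [ip1, ip2, iq0, iq1, iq2] at hneg
    all_goals linarith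

lemma zero_extreme : (0 : E) ∈ Set.extremePoints ℝ core := by
  rw [mem_extremePoints]
  refine ⟨zero_mem_core, ?_⟩
  intro z1 h1 z2 h2 hseg
  obtain ⟨s, t, hs, ht, _, h⟩ := hseg
  have hc : ∀ i, z1 i = 0 ∧ z2 i = 0 := by
    intro i
    have hi : s * z1 i + t * z2 i = 0 := by
      have := congrArg (fun v : E => v i) h
      simpa using this
    have n1 := core_nonpos z1 h1 i
    have n2 := core_nonpos z2 h2 i
    constructor
    · by_contra hne
      have : z1 i < 0 := lt_of_le_of_ne n1 hne
      nlinarith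
    · by_contra hne
      have : z2 i < 0 := lt_of_le_of_ne n2 hne
      nlinarith
  constructor
  · ext i; simpa using (hc i).1
  · ext i; simpa using (hc i).2

/-- If two of the unit vectors are missing, the remaining points lie in an open half-space. -/
lemma not_mem_hull (T : Set E) (a : E) (h : ∀ x ∈ T, 0 < inner ℝ a x) :
    (0 : E) ∉ convexHull ℝ T := by
  intro h0
  have hc : Convex ℝ {x : E | 0 < inner ℝ a x} := by
    have := convex_halfSpace_gt (𝕜 := ℝ) (f := fun x : E => inner ℝ a x)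
      ⟨fun x y => inner_add_right _ _ _, fun c x => by simp [inner_smul_right]⟩ 0
    exact this
  have : (0 : E) ∈ {x : E | 0 < inner ℝ a x} := convexHull_min h hc h0
  simp at this

lemma pigeon : ∀ x y z : Fin 2, (x = 0 ∨ y = 0) → (x = 1 ∨ y = 1) → (x = 0 ∨ z = 0) →
    (x = 1 ∨ z = 1) → (y = 0 ∨ z = 0) → (y = 1 ∨ z = 1) → False := by
  decide

/-- The negation of the preceding statement: For d,m ≥ 1 and finite S in R^d, every extreme point of the m-core (points whose every containing closed half-space holds at least m points of S) admits a partition of S into m parts whose convex hulls all contain it. -/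
theorem result :
    ¬ (∀ (d m : ℕ), 1 ≤ d → 1 ≤ m → ∀ (S : Finset (EuclideanSpace ℝ (Fin d))),
      ∀ y ∈ Set.extremePoints ℝ
          {z : EuclideanSpace ℝ (Fin d) |
            ∀ (a : EuclideanSpace ℝ (Fin d)) (b : ℝ), a ≠ 0 → inner ℝ a z ≤ b →
              m ≤ (S.filter (fun x => inner ℝ a x ≤ b)).card},
        ∃ f : EuclideanSpace ℝ (Fin d) → Fin m, ∀ i : Fin m,
          y ∈ convexHull ℝ
            ((S.filter (fun x => f x = i) : Finset (EuclideanSpace ℝ (Fin d))) :
              Set (EuclideanSpace ℝ (Fin d)))) := by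
  intro H
  obtain ⟨f, hf⟩ := H 3 2 (by norm_num) (by norm_num) S 0 zero_extreme
  -- a class contains at least one of any two of the unit vectors
  have A01 : ∀ i : Fin 2, f p0 = i ∨ f p1 = i := by
    intro i
    by_contra hn
    push Not at hn
    refine not_mem_hull _ (!₂[-2, -2, 1]) ?_ (hf i)
    intro x hx
    rw [Finset.mem_coe, Finset.mem_filter] at hx
    rcases (memS x).1 hx.1 with rfl | rfl | rfl | rfl | rfl | rfl
    · exact absurd hx.2 hn.1
    · exact absurd hx.2 hn.2
    all_goals simp [ip2, iq0, iq1, iq2]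
    all_goals norm_num
  have A02 : ∀ i : Fin 2, f p0 = i ∨ f p2 = i := by
    intro i
    by_contra hn
    push Not at hn
    refine not_mem_hull _ (!₂[-2, 1, -2]) ?_ (hf i)
    intro x hx
    rw [Finset.mem_coe, Finset.mem_filter] at hx
    rcases (memS x).1 hx.1 with rfl | rfl | rfl | rfl | rfl | rfl
    · exact absurd hx.2 hn.1
    · simp [ip1]
    · exact absurd hx.2 hn.2
    all_goals simp [ip2, iq0, iq1, iq2]
    all_goals norm_num
  have A12 : ∀ i : Fin 2, f p1 = i ∨ f p2 = i := by
    intro i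
    by_contra hn
    push Not at hn
    refine not_mem_hull _ (!₂[1, -2, -2]) ?_ (hf i)
    intro x hx
    rw [Finset.mem_coe, Finset.mem_filter] at hx
    rcases (memS x).1 hx.1 with rfl | rfl | rfl | rfl | rfl | rfl
    · simp [ip0]
    · exact absurd hx.2 hn.1
    · exact absurd hx.2 hn.2
    all_goals simp [ip2, iq0, iq1, iq2]
    all_goals norm_num
  exact pigeon (f p0) (f p1) (f p2) (A01 0) (A01 1) (A02 0) (A02 1) (A12 0) (A12 1)

end Pool.Agent.S07938
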