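import Pool.Statements.S09769
-- import your own Pool.Agent.* helpers here

set_option autoImplicit false
open Pool Pool.MP_811355_co

namespace Pool.Agent.S09769

/-!
The fifteen generators below are the columns of a matrix over `GF(2)` that represents the cographic
matroid of the Petersen graph (rank `15 - 10 + 1 = 6`), so three generators sum to zero exactly when
the corresponding edges form the star of a vertex of the Petersen graph.  Hence the neighbourhood of
the empty set contains the line graph of the Petersen graph, and a 4-colouring would give a proper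
3-edge-colouring of the Petersen graph.  An explicit 6-colouring is given by a table.
-/

/-- the generators, indexed by the edges of the Petersen graph -/
def gens : List (Finset (Fin 6)) :=
  [{0, 2}, {0}, {0, 3}, {1}, {1, 4}, {0, 1, 2, 4}, {2}, {3}, {0, 1, 3}, {4}, {3, 5},
    {2, 4, 5}, {5}, {0, 1, 2, 3, 4, 5}, {4, 5}]

/-- binary code of a subset -/
def code (A : Finset (Fin 6)) : ℕ := ∑ i ∈ A, 2 ^ i.val

/-- table of the 6-colouring -/
def table : List (Fin 6) :=
  [5, 3, 0, 4, 0, 2, 5, 1, 1, 2, 2, 1, 4, 3, 3, 4, 4, 2, 3, 1, 1, 3, 2, 4, 3, 0, 4, 5, 2, 5, 1, 0,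
    3, 4, 4, 3, 2, 1, 1, 2, 0, 1, 5, 2, 5, 4, 0, 3, 1, 5, 2, 0, 4, 0, 3, 5, 2, 4, 1, 3, 3, 1, 4, 2]

/-- the 6-colouring -/
def col (A : Finset (Fin 6)) : Fin 6 := table.getD (code A) 0

theorem col_ok : ∀ A : Finset (Fin 6), ∀ s ∈ gens, col A ≠ col (symmDiff A s) := by
  decide +kernel

/-- the empty set followed by the generators -/
def verts : List (Finset (Fin 6)) := ∅ :: gens

/-- for each of the sixteen vertices the list of its earlier neighbours -/
def nbs : List (List ℕ) :=
  [[], [0], [0, 1], [0, 2], [0, 3], [0, 1, 4], [0, 1, 5], [0, 1, 2], [0, 2, 3], [0, 3, 4],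
    [0, 4, 5], [0, 6, 8], [0, 7, 9], [0, 8, 10, 11], [0, 6, 9, 11, 12], [0, 7, 10, 12, 13]]

theorem nbs_ok : ∀ k ∈ List.range 16, ∀ j ∈ nbs.getD k [],
    j < k ∧ verts.getD j ∅ ≠ verts.getD k ∅ ∧
      symmDiff (verts.getD j ∅) (verts.getD k ∅) ∈ gens := by
  decide +kernel

/-- all proper 4-colourings of the first `k` vertices -/
def lev : ℕ → List (List ℕ)
  | 0 => [[]]
  | k + 1 => (lev k).flatMap fun l =>
      ((List.range 4).filter fun c => (nbs.getD k []).all fun j => l.getD j 9 != c).map
        fun c => l ++ [c]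

theorem lev_empty : lev 15 = [] := by
  decide +kernel

theorem mem_lev (g : ℕ → ℕ) (hg : ∀ k, g k < 4)
    (hn : ∀ k < 16, ∀ j ∈ nbs.getD k [], j < k ∧ g j ≠ g k) :
    ∀ k ≤ 16, (List.range k).map g ∈ lev k := by
  intro k
  induction k with
  | zero => intro _; simp [lev]
  | succ k ih =>
    intro hk
    have h1 := ih (by omega)
    rw [lev, List.mem_flatMap]
    refine ⟨_, h1, ?_⟩
    rw [List.mem_map]
    refine ⟨g k, ?_, ?_⟩
    · rw [List.mem_filter]
      refine ⟨List.mem_range.mpr (hg k), ?_⟩
      rw [List.all_eq_true]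
      intro j hj
      obtain ⟨hjk, hne⟩ := hn k (by omega) j hj
      have : ((List.range k).map g).getD j 9 = g j := by
        rw [List.getD_eq_getElem?_getD, List.getElem?_map, List.getElem?_range hjk]
        rfl
      rw [this]
      simpa using hne
    · rw [List.range_succ, List.map_append]
      rfl

/-- the family of generators as a set of subsets -/
def fam : Set (Finset (Fin 6)) := {A | A ∈ gens}

/-- the cube-like graph -/
abbrev grph : SimpleGraph (Finset (Fin 6)) :=
  SimpleGraph.fromRel (fun A B : Finset (Fin 6) => symmDiff A B ∈ fam)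

theorem colorable_six : grph.Colorable 6 := by
  refine ⟨SimpleGraph.Coloring.mk col ?_⟩
  intro A B hAB
  rw [SimpleGraph.fromRel_adj] at hAB
  obtain ⟨_, h⟩ := hAB
  have h' : symmDiff A B ∈ gens := by
    rcases h with h | h
    · exact h
    · rw [symmDiff_comm]; exact h
  have h2 := col_ok A _ h'
  rwa [symmDiff_symmDiff_cancel_left] at h2

theorem not_colorable_four : ¬ grph.Colorable 4 := by
  rintro ⟨C⟩
  let g : ℕ → ℕ := fun k => (C (verts.getD k ∅)).val
  have h := mem_lev g (fun k => (C (verts.getD k ∅)).isLt) ?_ 15 (by norm_num)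
  · rw [lev_empty] at h
    simp at h
  · intro k hk j hj
    obtain ⟨h1, h2, h3⟩ := nbs_ok k (List.mem_range.mpr hk) j hj
    refine ⟨h1, ?_⟩
    intro heq
    have hadj : grph.Adj (verts.getD j ∅) (verts.getD k ∅) := by
      rw [SimpleGraph.fromRel_adj]
      exact ⟨h2, Or.inl h3⟩
    exact C.valid hadj (Fin.ext heq)

/-- There exist n and a family F of nonempty subsets of an n-element set such that the graph on all subsets, joining distinct A and B when their symmetric difference is in F, has chromatic number exactly 5 or exactly 6. -/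
theorem result :
    ∃ n : ℕ, ∃ F : Set (Finset (Fin n)),
      (∀ A ∈ F, A.Nonempty) ∧
      ((SimpleGraph.fromRel (fun A B : Finset (Fin n) => symmDiff A B ∈ F)).chromaticNumber = (5 : ℕ∞) ∨
       (SimpleGraph.fromRel (fun A B : Finset (Fin n) => symmDiff A B ∈ F)).chromaticNumber = (6 : ℕ∞)) := by
  refine ⟨6, fam, ?_, ?_⟩
  · intro A hA
    have : ∀ A ∈ gens, A.Nonempty := by decide +kernel
    exact this A hA
  · have h6 : grph.chromaticNumber ≤ (6 : ℕ) :=
      SimpleGraph.chromaticNumber_le_iff_colorable.mpr colorable_six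
    have h4 : ¬ grph.chromaticNumber ≤ (4 : ℕ) := fun h =>
      not_colorable_four (SimpleGraph.chromaticNumber_le_iff_colorable.mp h)
    change grph.chromaticNumber = 5 ∨ grph.chromaticNumber = 6
    generalize grph.chromaticNumber = x at h6 h4
    have hx : x ≠ ⊤ := by
      rintro rfl
      simp at h6
    lift x to ℕ using hx
    norm_cast at h6 h4 ⊢
    omega

end Pool.Agent.S09769
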