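import Pool.Statements.S10160
-- import your own Pool.Agent.* helpers here

set_option autoImplicit false
open Pool Pool.MP_921356_co

namespace Pool.Agent.S10160

/-- closed neighbourhoods (as bit masks) of a connected cubic graph on eight vertices -/
def nb : List ℕ := [0x1d, 0xe2, 0x1d, 0x2d, 0x55, 0xaa, 0xd2, 0xe2]

/-- the adjacency relation -/
def adj (i j : Fin 8) : Bool := decide (i ≠ j) && (nb.getD i.val 0).testBit j.val

/-- the graph -/
def G : SimpleGraph (Fin 8) where
  Adj i j := adj i j = true
  symm := ⟨by decide⟩
  loopless := ⟨by decide⟩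

instance : DecidableRel G.Adj := fun i j => inferInstanceAs (Decidable (adj i j = true))

theorem conn : G.Connected := by
  have h : ∀ i : Fin 8, G.Reachable 0 i := by
    have e : ∀ {i j : Fin 8}, G.Reachable 0 i → G.Adj i j → G.Reachable 0 j :=
      fun h a => h.trans a.reachable
    have h0 : G.Reachable 0 0 := SimpleGraph.Reachable.refl 0
    have h2 : G.Reachable 0 2 := e h0 (by decide)
    have h3 : G.Reachable 0 3 := e h0 (by decide)
    have h4 : G.Reachable 0 4 := e h0 (by decide)
    have h5 : G.Reachable 0 5 := e h3 (by decide)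
    have h6 : G.Reachable 0 6 := e h4 (by decide)
    have h1 : G.Reachable 0 1 := e h6 (by decide)
    have h7 : G.Reachable 0 7 := e h6 (by decide)
    intro i
    fin_cases i <;> assumption
  exact { preconnected := fun i j => (h i).symm.trans (h j), nonempty := ⟨0⟩ }

/-- the value of a sign -/
def sg (b : Bool) : ℤ := if b then 1 else -1

theorem key : ∀ b : Fin 8 → Bool, ¬ (5 ≤ (Finset.univ.filter
      (fun v => 1 ≤ sg (b v) + ∑ u ∈ G.neighborFinset v, sg (b u))).card ∧
    ∑ v, sg (b v) ≤ 2) := by
  decide +kernel

/-- The negation of the preceding statement: Every connected graph of order n and every k with n/2 < k ≤ n admit a ±1 labelling whose closed-neighbourhood sums are ≥ 1 at no fewer than k vertices, with total weight at most 2k − n. -/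
theorem result :
    ¬ (∀ (V : Type) [Fintype V] [DecidableEq V] (G : SimpleGraph V) [DecidableRel G.Adj],
      G.Connected →
      ∀ k : ℕ, Fintype.card V < 2 * k → k ≤ Fintype.card V →
        ∃ f : V → ℤ, (∀ v, f v = 1 ∨ f v = -1) ∧
          k ≤ (Finset.univ.filter
                (fun v => 1 ≤ f v + ∑ u ∈ G.neighborFinset v, f u)).card ∧
          ∑ v, f v ≤ 2 * (k : ℤ) - (Fintype.card V : ℤ)) := by
  intro h
  obtain ⟨f, hf, hc, hw⟩ := h (Fin 8) G conn 5 (by simp) (by simp)
  have hb : ∀ v, f v = sg (decide (f v = 1)) := by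
    intro v
    rcases hf v with h1 | h1 <;> simp [h1, sg]
  refine key (fun v => decide (f v = 1)) ⟨?_, ?_⟩
  · simpa only [← hb] using hc
  · simp only [← hb]
    simpa using hw

end Pool.Agent.S10160
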