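import Pool.Statements.S19462
-- import your own Pool.Agent.* helpers here
import Pool.Agent.TH994.PreCut3

set_option autoImplicit false
open Filter Topology
open Pool Pool.MP_8aef71_pr

namespace Pool.Agent.S19462

/-- The negation of the preceding statement: Every sequence of random walks on finite groups with a precut-off (distance to uniform →0 at b·tₙ but eventually ≥ε at a·tₙ, tₙ→∞) has a cut-off: some sₙ→∞ with distance →0 at (1+ε)sₙ and →1 at (1−ε)sₙ for all ε in (0,1). -/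
theorem result :
    ¬ (∀ (G : ℕ → Type) [∀ n, Group (G n)] [∀ n, Fintype (G n)] [∀ n, DecidableEq (G n)]
    (p : ∀ n, G n → ℝ) (d : ℕ → ℕ → ℝ),
    (∀ n g, 0 ≤ p n g) → (∀ n, ∑ g, p n g = 1) →
    (∀ n k, d n k = (1 / 2 : ℝ) * ∑ g : G n,
        |(∑ f ∈ (Finset.univ : Finset (Fin k → G n)).filter (fun f => (List.ofFn f).prod = g),
            ∏ i, p n (f i)) - 1 / (Fintype.card (G n) : ℝ)|) →
    (∃ t : ℕ → ℝ, Tendsto t atTop atTop ∧ ∃ a b : ℝ, 0 < a ∧ a < b ∧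
        Tendsto (fun n => d n ⌊b * t n⌋₊) atTop (𝓝 0) ∧
        ∃ ε : ℝ, 0 < ε ∧ ∀ᶠ n in atTop, ε ≤ d n ⌊a * t n⌋₊) →
    ∃ s : ℕ → ℝ, Tendsto s atTop atTop ∧ ∀ ε : ℝ, 0 < ε → ε < 1 →
        Tendsto (fun n => d n ⌊(1 + ε) * s n⌋₊) atTop (𝓝 0) ∧
        Tendsto (fun n => d n ⌊(1 - ε) * s n⌋₊) atTop (𝓝 1)) := by
  intro H
  obtain ⟨s, hs, hc⟩ := H Pool.Agent.TH994.PreCut.Gn Pool.Agent.TH994.PreCut.pn
    Pool.Agent.TH994.PreCut.D Pool.Agent.TH994.PreCut.pn_nonneg Pool.Agent.TH994.PreCut.pn_sum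
    (fun n k => Pool.Agent.TH994.PreCut.D_eq n k)
    ⟨fun n => (n : ℝ), tendsto_natCast_atTop_atTop, 1, 3, by norm_num, by norm_num, by
      have h : (fun n : ℕ => Pool.Agent.TH994.PreCut.D n ⌊(3:ℝ) * (n:ℝ)⌋₊) =
          (fun n : ℕ => Pool.Agent.TH994.PreCut.D n (3 * n)) := by
        funext n
        congr 1
        have : (3:ℝ) * (n:ℝ) = ((3 * n : ℕ) : ℝ) := by push_cast; ring
        rw [this, Nat.floor_natCast]
      rw [h]
      exact Pool.Agent.TH994.PreCut.D_tendsto_zero, 1 / 36, by norm_num, by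
      filter_upwards [eventually_ge_atTop 1] with n hn
      have : ⌊(1:ℝ) * (n:ℝ)⌋₊ = n := by rw [one_mul, Nat.floor_natCast]
      rw [this]
      exact Pool.Agent.TH994.PreCut.D_ge n n hn (by omega)⟩
  exact Pool.Agent.TH994.PreCut.no_cutoff s hs hc

end Pool.Agent.S19462
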